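import Pool.Agent.W142.TF.Stm
import Mathlib.Combinatorics.Nullstellensatz

/-! Project TF, part NUL: points with prescribed differences. -/

set_option autoImplicit false
open Finset MvPolynomial

namespace Pool.Agent.W140.TF

variable {σ K : Type} [CommRing K]

/-- all monomials have degree less than `e` -/
def Lt (e : ℕ) (f : MvPolynomial σ K) : Prop := ∀ t : σ →₀ ℕ, e ≤ t.degree → coeff t f = 0

lemma Lt.add {a : ℕ} {f g : MvPolynomial σ K} (hf : Lt a f) (hg : Lt a g) : Lt a (f + g) := by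
  intro t ht
  rw [coeff_add, hf t ht, hg t ht, add_zero]

lemma Lt.mono {a b : ℕ} (hab : a ≤ b) {f : MvPolynomial σ K} (hf : Lt a f) : Lt b f :=
  fun t ht => hf t (hab.trans ht)

lemma Lt.mul {a b : ℕ} {f g : MvPolynomial σ K} (hf : Lt a f) (hg : Lt (b + 1) g) :
    Lt (a + b) (f * g) := by
  classical
  intro t ht
  rw [coeff_mul]
  refine Finset.sum_eq_zero ?_
  rintro ⟨u, v⟩ huv
  rw [Finset.HasAntidiagonal.mem_antidiagonal] at huv
  have hd : u.degree + v.degree = t.degree := by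
    rw [← huv]
    exact (map_add _ _ _).symm
  by_cases h : a ≤ u.degree
  · simp [hf u h]
  · simp [hg v (by omega)]

lemma hom_lt {e : ℕ} {h : MvPolynomial σ K} (hh : h.IsHomogeneous e) : Lt (e + 1) h := by
  intro t ht
  by_contra hcon
  have := hh hcon
  have h2 : (Finsupp.weight (1 : σ → ℕ)) t = t.degree := by
    rw [Finsupp.degree_eq_weight_one]
    rfl
  omega

/-- `h` is the top part of `f` -/
structure Tp (e : ℕ) (f h : MvPolynomial σ K) : Prop where
  low : Lt e (f - h)
  hom : h.IsHomogeneous e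

lemma Tp.le {e : ℕ} {f h : MvPolynomial σ K} (H : Tp e f h) : Lt (e + 1) f := by
  have h1 := (H.low.mono (Nat.le_succ e)).add (hom_lt H.hom)
  rwa [sub_add_cancel] at h1

lemma Tp.refl {e : ℕ} {h : MvPolynomial σ K} (hh : h.IsHomogeneous e) : Tp e h h :=
  ⟨by intro t _; simp, hh⟩

lemma Tp.mul {e₁ e₂ : ℕ} {f₁ f₂ h₁ h₂ : MvPolynomial σ K} (H₁ : Tp e₁ f₁ h₁) (H₂ : Tp e₂ f₂ h₂) :
    Tp (e₁ + e₂) (f₁ * f₂) (h₁ * h₂) := by
  refine ⟨?_, H₁.hom.mul H₂.hom⟩
  have e : f₁ * f₂ - h₁ * h₂ = (f₁ - h₁) * f₂ + (f₂ - h₂) * h₁ := by ring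
  rw [e]
  refine (H₁.low.mul H₂.le).add ?_
  rw [add_comm e₁ e₂]
  exact H₂.low.mul (hom_lt H₁.hom)

lemma Tp.prod {ι : Type} (s : Finset ι) (f h : ι → MvPolynomial σ K) (e : ι → ℕ)
    (H : ∀ i ∈ s, Tp (e i) (f i) (h i)) : Tp (∑ i ∈ s, e i) (∏ i ∈ s, f i) (∏ i ∈ s, h i) := by
  classical
  induction s using Finset.induction_on with
  | empty =>
    simp only [Finset.sum_empty, Finset.prod_empty]
    exact Tp.refl (isHomogeneous_one _ _)
  | insert a s ha ih =>
    rw [Finset.sum_insert ha, Finset.prod_insert ha, Finset.prod_insert ha]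
    exact (H a (Finset.mem_insert_self _ _)).mul
      (ih (fun i hi => H i (Finset.mem_insert_of_mem hi)))

lemma lin_hom (i j : σ) : (X j - X i : MvPolynomial σ K).IsHomogeneous 1 :=
  (isHomogeneous_X _ j).sub (isHomogeneous_X _ i)

lemma Tp.lin (i j : σ) (d : K) : Tp 1 (X j - X i - C d : MvPolynomial σ K) (X j - X i) := by
  classical
  refine ⟨?_, lin_hom i j⟩
  intro t ht
  have e : (X j - X i - C d - (X j - X i) : MvPolynomial σ K) = - C d := by ring
  rw [e, coeff_neg, coeff_C, if_neg, neg_zero]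
  rintro rfl
  simp at ht

lemma split {M : Type} [CommMonoid M] {N : ℕ} (G : Fin N × Fin N → M) :
    ∏ i, ∏ j ∈ univ.erase i, G (i, j) =
      ∏ q ∈ univ.filter (fun q : Fin N × Fin N => q.1 < q.2), (G q * G q.swap) := by
  have h1 : ∀ i, ∏ j ∈ univ.erase i, G (i, j) =
      (∏ j, if i < j then G (i, j) else 1) * (∏ j, if j < i then G (i, j) else 1) := by
    intro i
    rw [← Finset.prod_mul_distrib]
    rw [← Finset.prod_subset (Finset.erase_subset i univ)]
    · refine Finset.prod_congr rfl (fun j hj => ?_)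
      have hne : j ≠ i := Finset.ne_of_mem_erase hj
      rcases lt_or_gt_of_ne hne with h | h
      · simp [h, not_lt.mpr h.le]
      · simp [h, not_lt.mpr h.le]
    · intro j _ hj
      have : j = i := by
        by_contra h
        exact hj (Finset.mem_erase.mpr ⟨h, Finset.mem_univ _⟩)
      simp [this]
  rw [Finset.prod_congr rfl (fun i _ => h1 i), Finset.prod_mul_distrib, Finset.prod_mul_distrib,
    Finset.prod_filter, Finset.prod_filter, Fintype.prod_prod_type, Fintype.prod_prod_type]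
  congr 1
  rw [Finset.prod_comm]
  rfl

lemma card_pairs (N : ℕ) :
    2 * (univ.filter (fun q : Fin N × Fin N => q.1 < q.2)).card = N * (N - 1) := by
  have h1 := split (N := N) (fun _ : Fin N × Fin N => (2 : ℕ))
  simp only [Finset.prod_const, Finset.card_erase_of_mem (Finset.mem_univ _), Finset.card_univ,
    Fintype.card_fin] at h1
  have h2 : (2 * 2 : ℕ) = 2 ^ 2 := rfl
  rw [h2, ← pow_mul, ← pow_mul] at h1
  have h3 := Nat.pow_right_injective le_rfl h1
  linarith [h3, mul_comm N (N - 1)]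

theorem nul : Pool.Agent.W142.TF.S_dys → Pool.Agent.W142.TF.S_pts := by
  classical
  intro hdys n p l hp hle R hR
  have : Fact p.Prime := ⟨hp⟩
  set P := univ.filter (fun q : Fin (n + 1) × Fin (n + 1) => q.1 < q.2) with hP
  have hRP : ∀ q ∈ P, (R q.1 q.2).card ≤ 2 * l := fun q hq =>
    hR q.1 q.2 (Finset.mem_filter.mp hq).2
  set f : MvPolynomial (Fin (n + 1)) (ZMod p) := ∏ q ∈ P,
    ((∏ d ∈ R q.1 q.2, (X q.2 - X q.1 - C d)) * (X q.2 - X q.1) ^ (2 * l - (R q.1 q.2).card))
    with hf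
  set h : MvPolynomial (Fin (n + 1)) (ZMod p) := ∏ q ∈ P, (X q.2 - X q.1) ^ (2 * l) with hh
  set e := ∑ _q ∈ P, 2 * l with he
  have hT : Tp e f h := by
    refine Tp.prod P _ _ _ (fun q hq => ?_)
    have h1 := Tp.prod (R q.1 q.2) (fun d => (X q.2 - X q.1 - C d : MvPolynomial (Fin (n + 1)) (ZMod p)))
      (fun _ => X q.2 - X q.1) (fun _ => 1) (fun d _ => Tp.lin q.1 q.2 d)
    have h2 : Tp (2 * l - (R q.1 q.2).card)
        ((X q.2 - X q.1 : MvPolynomial (Fin (n + 1)) (ZMod p)) ^ (2 * l - (R q.1 q.2).card))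
        ((X q.2 - X q.1) ^ (2 * l - (R q.1 q.2).card)) := by
      refine Tp.refl ?_
      have := (lin_hom (K := ZMod p) q.1 q.2).pow (2 * l - (R q.1 q.2).card)
      rwa [one_mul] at this
    have h3 := h1.mul h2
    have h4 : (∑ _d ∈ R q.1 q.2, 1) + (2 * l - (R q.1 q.2).card) = 2 * l := by
      have := hRP q hq
      simp
      omega
    have h5 : (∏ _d ∈ R q.1 q.2, (X q.2 - X q.1 : MvPolynomial (Fin (n + 1)) (ZMod p))) *
        (X q.2 - X q.1) ^ (2 * l - (R q.1 q.2).card) = (X q.2 - X q.1) ^ (2 * l) := by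
      rw [Finset.prod_const, ← pow_add]
      congr 1
      have := hRP q hq
      omega
    rw [h4, h5] at h3
    exact h3
  -- the exponent
  set t : Fin (n + 1) →₀ ℕ := Finsupp.equivFunOnFinite.symm (fun _ : Fin (n + 1) => n * l) with ht
  have htd : t.degree = (n + 1) * (n * l) := by
    rw [Finsupp.degree_eq_sum]
    simp [ht]
  have hed : e = t.degree := by
    have h1 := card_pairs (n + 1)
    rw [htd, he, Finset.sum_const, smul_eq_mul]
    rw [Nat.add_sub_cancel] at h1
    calc P.card * (2 * l) = (2 * P.card) * l := by ring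
      _ = (n + 1) * n * l := by rw [h1]
      _ = _ := by ring
  -- Dyson
  set Dz : MvPolynomial (Fin (n + 1)) ℤ :=
    ∏ i : Fin (n + 1), ∏ j ∈ univ.erase i, (X j - X i) ^ l with hDz
  have hd := hdys (n + 1) l
  rw [Nat.add_sub_cancel] at hd
  have hd' : coeff t Dz * (l.factorial : ℤ) ^ (n + 1) = (((n + 1) * l).factorial : ℤ) := hd
  set Dp : MvPolynomial (Fin (n + 1)) (ZMod p) :=
    ∏ i : Fin (n + 1), ∏ j ∈ univ.erase i, (X j - X i) ^ l with hDp
  have hmap : MvPolynomial.map (Int.castRingHom (ZMod p)) Dz = Dp := by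
    simp [hDz, hDp, map_prod]
  have hc1 : coeff t Dp = ((coeff t Dz : ℤ) : ZMod p) := by
    rw [← hmap, coeff_map]
    rfl
  have hc2 : coeff t Dp ≠ 0 := by
    intro h0
    rw [hc1] at h0
    have h1 := congrArg (fun z : ℤ => (z : ZMod p)) hd'
    simp only [Int.cast_mul, h0, zero_mul, Int.cast_natCast] at h1
    have h2 : ((((n + 1) * l).factorial : ℕ) : ZMod p) = 0 := h1.symm
    rw [ZMod.natCast_eq_zero_iff, hp.dvd_factorial] at h2
    omega
  have hDh : Dp = C ((-1) ^ (l * P.card)) * h := by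
    rw [hDp]
    have h1 := split (N := n + 1) (fun q : Fin (n + 1) × Fin (n + 1) =>
      (X q.2 - X q.1 : MvPolynomial (Fin (n + 1)) (ZMod p)) ^ l)
    rw [h1]
    have h2 : ∀ q ∈ P, ((X q.2 - X q.1 : MvPolynomial (Fin (n + 1)) (ZMod p)) ^ l *
        (X q.swap.2 - X q.swap.1) ^ l) = (-1) ^ l * (X q.2 - X q.1) ^ (2 * l) := by
      intro q _
      simp only [Prod.fst_swap, Prod.snd_swap]
      have h3 : (X q.1 - X q.2 : MvPolynomial (Fin (n + 1)) (ZMod p)) = (-1) * (X q.2 - X q.1) := by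
        ring
      rw [h3, mul_pow]
      ring
    rw [Finset.prod_congr rfl h2, Finset.prod_mul_distrib, Finset.prod_const, ← pow_mul, ← hh]
    simp
  have hc3 : coeff t h ≠ 0 := by
    intro h0
    apply hc2
    rw [hDh, coeff_C_mul, h0, mul_zero]
  have hc4 : coeff t f ≠ 0 := by
    have h1 := hT.low t (le_of_eq hed)
    rw [coeff_sub, sub_eq_zero] at h1
    rw [h1]
    exact hc3
  have htot : f.totalDegree = t.degree := by
    apply le_antisymm
    · refine Finset.sup_le (fun s hs => ?_)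
      by_contra hcon
      have h1 : e + 1 ≤ s.degree := by
        have h2 : s.degree = (s.sum fun _ e => e) := rfl
        omega
      exact (mem_support_iff.mp hs) (hT.le s h1)
    · exact le_totalDegree (mem_support_iff.mpr hc4)
  obtain ⟨s, -, hs⟩ := combinatorial_nullstellensatz_exists_eval_nonzero f t hc4 htot
    (fun _ => univ) (by
      intro i
      rw [Finset.card_univ, ZMod.card]
      simp only [ht, Finsupp.equivFunOnFinite_symm_apply_apply]
      have : n * l ≤ (n + 1) * l := Nat.mul_le_mul_right _ (Nat.le_succ n)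
      omega)
  refine ⟨s, fun i j hij hmem => ?_⟩
  apply hs
  rw [hf, map_prod]
  refine Finset.prod_eq_zero (i := (i, j)) (Finset.mem_filter.mpr ⟨Finset.mem_univ _, hij⟩) ?_
  rw [map_mul, map_prod]
  refine mul_eq_zero_of_left ?_ _
  refine Finset.prod_eq_zero hmem ?_
  simp

end Pool.Agent.W140.TF
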